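import Pool.Agent.Helper98.HQ.Spec

set_option autoImplicit false

open Pool.Agent.Helper98.HQ

namespace Pool.Agent.Helper68.HQ.LOWS

theorem main (h : S_SRT) : S_LOWS := by
  intro m w s t M hm hw hs hsM ht hlow
  set V : Fin (m + 1) → ℝ := fun i => max (w i + (if (i : ℕ) = 0 then s else 0) - t) 0 with hV
  have hkw : kw w s t = srt V := rfl
  have hM : 0 ≤ M := hs.trans hsM
  have hmono : Monotone (srt V) := (h (m + 1) V V).1
  have hsum : ∑ i, srt V i = ∑ i, V i := (h (m + 1) V V).2.1 (fun x => x)
  have hlast0 : ((Fin.last m : Fin (m + 1)) : ℕ) ≠ 0 := by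
    simp only [Fin.val_last]; omega
  have hsv : ∀ i, srt V i = V (Tuple.sort V i) := fun i => rfl
  have hVj : ∀ j, j ≠ Fin.last m → V j ≤ max (w 0 + M - t) 0 := by
    intro j hj
    simp only [hV]
    by_cases hj0 : (j : ℕ) = 0
    · rw [if_pos hj0]
      have hj' : j = 0 := Fin.ext (by simpa using hj0)
      subst hj'
      apply max_le_max _ le_rfl
      linarith
    · rw [if_neg hj0]
      apply max_le_max _ le_rfl
      have := hlow j hj
      linarith
  have hup : ∀ i, i ≠ Fin.last m → srt V i ≤ max (w 0 + M - t) 0 := by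
    intro i hi
    by_contra hcon
    push Not at hcon
    have h1 : max (w 0 + M - t) 0 < srt V (Fin.last m) := lt_of_lt_of_le hcon (hmono (Fin.le_last i))
    have a1 : Tuple.sort V i = Fin.last m := by
      by_contra hne
      have := hVj _ hne
      rw [hsv] at hcon
      linarith
    have a2 : Tuple.sort V (Fin.last m) = Fin.last m := by
      by_contra hne
      have := hVj _ hne
      rw [hsv] at h1
      linarith
    exact hi ((Tuple.sort V).injective (a1.trans a2.symm))
  have hw0 : ∀ j, w 0 ≤ w j := fun j => hw.1 (Fin.zero_le j)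
  have hlo : max (w 0 - t) 0 ≤ srt V 0 := by
    rw [hsv]
    generalize Tuple.sort V 0 = j
    simp only [hV]
    apply max_le_max _ le_rfl
    have := hw0 j
    split_ifs <;> linarith
  have hLow : Low M (srt V) := by
    intro i hi
    have h1 := hup i hi
    have h2 : max (w 0 + M - t) 0 ≤ max (w 0 - t) 0 + M := by
      apply max_le
      · have := le_max_left (w 0 - t) 0
        linarith
      · have := le_max_right (w 0 - t) 0
        linarith
    linarith
  rw [hkw]
  refine ⟨hLow, ?_⟩
  have hls : lsum (srt V) = ∑ i : Fin m, srt V (Fin.castSucc i) := by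
    unfold lsum
    rw [Fin.sum_univ_castSucc]
    ring
  by_cases hcase : ∃ j : Fin (m + 1), w j + (if (j : ℕ) = 0 then s else 0) - t < 0
  · obtain ⟨j, hj⟩ := hcase
    have hVj0 : V j = 0 := by
      simp only [hV]
      exact max_eq_right hj.le
    have h0 : srt V 0 ≤ 0 := by
      have h1 : srt V 0 ≤ srt V ((Tuple.sort V).symm j) := hmono (Fin.zero_le _)
      have h2 : srt V ((Tuple.sort V).symm j) = V j := by
        rw [hsv, Equiv.apply_symm_apply]
      rw [h2, hVj0] at h1
      exact h1
    apply le_max_of_le_right
    rw [hls]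
    calc ∑ i : Fin m, srt V (Fin.castSucc i) ≤ ∑ i : Fin m, M := by
          apply Finset.sum_le_sum
          intro i _
          have := hLow (Fin.castSucc i) (Fin.castSucc_lt_last i).ne
          linarith
      _ = m * M := by simp
  · push Not at hcase
    apply le_max_of_le_left
    have hVe : ∀ j, V j = w j + (if (j : ℕ) = 0 then s else 0) - t := by
      intro j
      simp only [hV]
      exact max_eq_left (hcase j)
    have h1 : ∑ i, V i = ∑ i, w i + s - (m + 1) * t := by
      rw [Finset.sum_congr rfl (fun i _ => hVe i), Finset.sum_sub_distrib,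
        Finset.sum_add_distrib]
      congr 1
      · congr 1
        rw [Fin.sum_univ_succ]
        simp
      · simp
    have h2 : V (Fin.last m) ≤ srt V (Fin.last m) := by
      have h3 : srt V ((Tuple.sort V).symm (Fin.last m)) ≤ srt V (Fin.last m) :=
        hmono (Fin.le_last _)
      rwa [hsv ((Tuple.sort V).symm (Fin.last m)), Equiv.apply_symm_apply] at h3
    have h4 := hVe (Fin.last m)
    rw [if_neg hlast0] at h4
    unfold lsum
    rw [hsum, h1]
    linarith

end Pool.Agent.Helper68.HQ.LOWS
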