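import Pool.Agent.Helper98.HQ.Spec

set_option autoImplicit false

open Pool.Agent.Helper98.HQ

namespace Pool.Agent.Helper68.HQ.LSL

theorem main (h : S_SRT) : S_LSL := by
  intro m w s t hm hw hs ht hsl
  set V : Fin (m + 1) → ℝ := fun i => max (w i + (if (i : ℕ) = 0 then s else 0) - t) 0 with hV
  have hkw : kw w s t = srt V := rfl
  have hsum : ∑ i, srt V i = ∑ i, V i := (h (m + 1) V V).2.1 (fun x => x)
  have hlast0 : ((Fin.last m : Fin (m + 1)) : ℕ) ≠ 0 := by
    simp only [Fin.val_last]; omega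
  have hlast : srt V (Fin.last m) ≤ V (Fin.last m) := by
    have : srt V (Fin.last m) = V (Tuple.sort V (Fin.last m)) := rfl
    rw [this]
    generalize Tuple.sort V (Fin.last m) = j
    have hj : w j ≤ w (Fin.last m) := hw.1 (Fin.le_last j)
    simp only [hV]
    rw [if_neg hlast0]
    by_cases hj0 : (j : ℕ) = 0
    · rw [if_pos hj0]
      have hj' : j = 0 := Fin.ext (by simpa using hj0)
      subst hj'
      apply max_le_max _ le_rfl
      linarith
    · rw [if_neg hj0]
      apply max_le_max _ le_rfl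
      linarith
  rw [hkw]
  unfold lsum
  rw [hsum]
  have h1 : ∑ i, V i = ∑ i : Fin m, V (Fin.castSucc i) + V (Fin.last m) := Fin.sum_univ_castSucc V
  have h2 : ∑ i, w i = ∑ i : Fin m, w (Fin.castSucc i) + w (Fin.last m) := Fin.sum_univ_castSucc w
  have h3 : ∑ i : Fin m, (w (Fin.castSucc i) + (if (i : ℕ) = 0 then s else 0) - t) ≤
      ∑ i : Fin m, V (Fin.castSucc i) := by
    apply Finset.sum_le_sum
    intro i _
    exact le_max_left _ _
  have h4 : ∑ i : Fin m, (w (Fin.castSucc i) + (if (i : ℕ) = 0 then s else 0) - t) =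
      ∑ i : Fin m, w (Fin.castSucc i) + s - m * t := by
    obtain ⟨n, rfl⟩ : ∃ n, m = n + 1 := ⟨m - 1, by omega⟩
    rw [Finset.sum_sub_distrib, Finset.sum_add_distrib]
    congr 1
    · congr 1
      rw [Fin.sum_univ_succ]
      simp
    · simp
  linarith

end Pool.Agent.Helper68.HQ.LSL
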